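import Mathlib

/-!
# MP_629fb1_pr: the capacity formula for hole probabilities of the Gaussian entire function fails
-/

set_option autoImplicit false

open MeasureTheory ProbabilityTheory Filter Topology Finset
open scoped ENNReal Real Nat

namespace Pool.Agent.Results.MP_629fb1_pr.HoleCapacityFails

/-! ## Definitions -/

/-- the standard complex Gaussian law, with density `π⁻¹ exp (-|w|²)` -/
noncomputable def stdC : Measure ℂ :=
  volume.withDensity fun w => ENNReal.ofReal (1 / π * Real.exp (-‖w‖ ^ 2))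

/-- the Gaussian entire function with coefficients `ξ` -/
noncomputable def gef (ξ : ℕ → ℂ) (z : ℂ) : ℂ := ∑' n, ξ n * z ^ n / (Real.sqrt (n ! : ℝ) : ℂ)

/-- `ξ_0, ξ_1, ...` are independent standard complex Gaussians -/
structure IsGaussianSeq {Ω : Type*} [MeasurableSpace Ω] (P : Measure Ω) (ξ : ℕ → Ω → ℂ) : Prop where
  meas : ∀ n, Measurable (ξ n)
  indep : iIndepFun ξ P
  law : ∀ n, P.map (ξ n) = stdC

/-- the hole probability exponent `p_{H,K}(f;r)` -/
noncomputable def pH {Ω : Type*} [MeasurableSpace Ω] (P : Measure Ω) (ξ : ℕ → Ω → ℂ) (K : Set ℂ)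
    (r : ℝ) : ℝ :=
  -Real.log (P.real {ω | ∀ z ∈ K, gef (fun n => ξ n ω) ((r : ℂ) * z) ≠ 0})

/-- the `n`-th diameter of `K` (maximal geometric mean of the distances of `n` points) -/
noncomputable def diamN (K : Set ℂ) (n : ℕ) : ℝ :=
  sSup {x : ℝ | ∃ z : Fin n → ℂ, (∀ i, z i ∈ K) ∧
    x = (∏ i, ∏ j ∈ univ.erase i, ‖z i - z j‖) ^ ((1 : ℝ) / (n * (n - 1)))}

/-- the transfinite diameter (logarithmic capacity): limit of the non-increasing sequence of
`n`-th diameters -/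
noncomputable def cap (K : Set ℂ) : ℝ := ⨅ n : ℕ, diamN K (n + 2)

/-! ## The Gaussian law -/

lemma gauss_int {b : ℝ} (hb : 0 < b) : ∫ w : ℂ, Real.exp (-b * ‖w‖ ^ 2) = π / b := by
  have h := GaussianFourier.integral_rexp_neg_mul_sq_norm (V := ℂ) hb
  rw [h, Complex.finrank_real_complex]
  norm_num

lemma gauss_integrable {b : ℝ} (hb : 0 < b) :
    Integrable (fun w : ℂ => Real.exp (-b * ‖w‖ ^ 2)) := by
  by_contra hc
  have := gauss_int hb
  rw [integral_undef hc] at this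
  have : 0 < π / b := by positivity
  linarith

lemma dens_meas : Measurable fun w : ℂ => ENNReal.ofReal (1 / π * Real.exp (-‖w‖ ^ 2)) := by
  fun_prop

/-- small balls -/
lemma stdC_ball {a : ℂ} (ha : ‖a‖ ≤ 1) {ε : ℝ} (h0 : 0 < ε) (h1 : ε ≤ 1) :
    ENNReal.ofReal (Real.exp (-4) * ε ^ 2) ≤ stdC (Metric.ball a ε) := by
  unfold stdC
  rw [withDensity_apply _ measurableSet_ball]
  have hlow : ∀ w ∈ Metric.ball a ε, ENNReal.ofReal (1 / π * Real.exp (-4)) ≤
      ENNReal.ofReal (1 / π * Real.exp (-‖w‖ ^ 2)) := by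
    intro w hw
    apply ENNReal.ofReal_le_ofReal
    refine mul_le_mul_of_nonneg_left (Real.exp_le_exp.2 ?_) (by positivity)
    have h2 : ‖w‖ ≤ 2 := by
      have h3 : ‖w - a‖ < ε := by simpa [dist_eq_norm] using hw
      calc ‖w‖ = ‖(w - a) + a‖ := by ring_nf
        _ ≤ ‖w - a‖ + ‖a‖ := norm_add_le _ _
        _ ≤ 2 := by linarith
    nlinarith [norm_nonneg w]
  calc ENNReal.ofReal (Real.exp (-4) * ε ^ 2)
      = ∫⁻ w in Metric.ball a ε, ENNReal.ofReal (1 / π * Real.exp (-4)) := by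
        rw [setLIntegral_const, Complex.volume_ball]
        have : (NNReal.pi : ℝ≥0∞) = ENNReal.ofReal π := by
          rw [← NNReal.coe_real_pi, ENNReal.ofReal_coe_nnreal]
        rw [this, ← ENNReal.ofReal_pow h0.le, ← ENNReal.ofReal_mul (by positivity),
          ← ENNReal.ofReal_mul (by positivity)]
        congr 1
        field_simp
    _ ≤ _ := setLIntegral_mono' measurableSet_ball hlow

lemma stdC_univ : stdC Set.univ = 1 := by
  unfold stdC
  rw [withDensity_apply _ MeasurableSet.univ, Measure.restrict_univ,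
    ← ofReal_integral_eq_lintegral_ofReal]
  · rw [integral_const_mul]
    have := gauss_int one_pos
    simp only [neg_mul, one_mul, div_one] at this
    rw [this]
    simp
  · have := (gauss_integrable one_pos).const_mul (1 / π)
    simpa using this
  · exact Eventually.of_forall fun w => by positivity

lemma stdC_prob : IsProbabilityMeasure stdC := ⟨stdC_univ⟩

/-- tails -/
lemma stdC_tail {s : ℝ} (hs : 0 ≤ s) :
    stdC {w | s < ‖w‖} ≤ ENNReal.ofReal (2 * Real.exp (-s ^ 2 / 2)) := by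
  unfold stdC
  have hm : MeasurableSet {w : ℂ | s < ‖w‖} := measurableSet_lt measurable_const measurable_norm
  rw [withDensity_apply _ hm]
  have hup : ∀ w ∈ {w : ℂ | s < ‖w‖}, ENNReal.ofReal (1 / π * Real.exp (-‖w‖ ^ 2)) ≤
      ENNReal.ofReal (Real.exp (-s ^ 2 / 2) / π * Real.exp (-(1 / 2) * ‖w‖ ^ 2)) := by
    intro w hw
    apply ENNReal.ofReal_le_ofReal
    have hw' : s < ‖w‖ := hw
    rw [div_mul_eq_mul_div, div_mul_eq_mul_div, one_mul, ← Real.exp_add]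
    refine div_le_div_of_nonneg_right (Real.exp_le_exp.2 ?_) Real.pi_pos.le
    nlinarith
  calc ∫⁻ w in {w : ℂ | s < ‖w‖}, ENNReal.ofReal (1 / π * Real.exp (-‖w‖ ^ 2))
      ≤ ∫⁻ w in {w : ℂ | s < ‖w‖},
        ENNReal.ofReal (Real.exp (-s ^ 2 / 2) / π * Real.exp (-(1 / 2) * ‖w‖ ^ 2)) :=
        setLIntegral_mono' hm hup
    _ ≤ ∫⁻ w, ENNReal.ofReal (Real.exp (-s ^ 2 / 2) / π * Real.exp (-(1 / 2) * ‖w‖ ^ 2)) :=
        setLIntegral_le_lintegral _ _
    _ = ENNReal.ofReal (2 * Real.exp (-s ^ 2 / 2)) := by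
        rw [← ofReal_integral_eq_lintegral_ofReal
          ((gauss_integrable (by norm_num : (0 : ℝ) < 1 / 2)).const_mul _)
          (Eventually.of_forall fun w => by positivity), integral_const_mul,
          gauss_int (by norm_num)]
        congr 1
        field_simp

lemma stdC_tail_n {n : ℕ} (hn : 3 ≤ n) :
    stdC {w | (n + 1 : ℝ) < ‖w‖} ≤ ENNReal.ofReal ((1 / 4) * (1 / 2) ^ n) := by
  refine (stdC_tail (by positivity)).trans (ENNReal.ofReal_le_ofReal ?_)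
  have hn' : (3 : ℝ) ≤ n := by exact_mod_cast hn
  have h1 : Real.exp (-(n + 1 : ℝ) ^ 2 / 2) ≤ Real.exp (-2 * (n + 1 : ℕ)) := by
    apply Real.exp_le_exp.2
    push_cast
    nlinarith
  have h2 : Real.exp (-2 * ((n + 1 : ℕ) : ℝ)) = Real.exp (-2) ^ (n + 1) := by
    rw [← Real.exp_nat_mul]; congr 1; ring
  have h3 : Real.exp (-2) ≤ 1 / 4 := by
    have h4 : Real.exp (-2) = (Real.exp 1 ^ 2)⁻¹ := by
      rw [← Real.exp_nat_mul, ← Real.exp_neg]; norm_num
    rw [h4, inv_eq_one_div]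
    apply one_div_le_one_div_of_le (by norm_num)
    have := Real.exp_one_gt_d9
    nlinarith
  have h5 : Real.exp (-2) ^ (n + 1) ≤ (1 / 4 : ℝ) ^ (n + 1) :=
    pow_le_pow_left₀ (Real.exp_pos _).le h3 _
  have h6 : (1 / 4 : ℝ) ^ n ≤ 1 / 2 * (1 / 2) ^ n := by
    have h7 : (1 / 4 : ℝ) ^ n = (1 / 2) ^ n * (1 / 2) ^ n := by rw [← mul_pow]; norm_num
    rw [h7]
    refine mul_le_mul_of_nonneg_right ?_ (by positivity)
    calc (1 / 2 : ℝ) ^ n ≤ (1 / 2) ^ 1 := pow_le_pow_of_le_one (by norm_num) (by norm_num) (by omega)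
      _ = 1 / 2 := pow_one _
  calc 2 * Real.exp (-(n + 1 : ℝ) ^ 2 / 2) ≤ 2 * (1 / 4 : ℝ) ^ (n + 1) := by
        rw [h2] at h1; linarith
    _ = 1 / 2 * (1 / 4) ^ n := by rw [pow_succ]; ring
    _ ≤ _ := by nlinarith

lemma stdC_closed {n : ℕ} (hn : 3 ≤ n) :
    ENNReal.ofReal (1 - (1 / 4) * (1 / 2) ^ n) ≤ stdC {w | ‖w‖ ≤ (n + 1 : ℝ)} := by
  have hp := stdC_prob
  have hm : MeasurableSet {w : ℂ | (n + 1 : ℝ) < ‖w‖} :=
    measurableSet_lt measurable_const measurable_norm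
  have hc : {w : ℂ | ‖w‖ ≤ (n + 1 : ℝ)} = {w : ℂ | (n + 1 : ℝ) < ‖w‖}ᶜ := by
    ext w; simp
  rw [hc, prob_compl_eq_one_sub hm, ENNReal.ofReal_sub _ (by positivity), ENNReal.ofReal_one]
  exact tsub_le_tsub_left (stdC_tail_n hn) _

/-! ## The coefficients of `exp (z² / 2)` -/

/-- the coefficients -/
noncomputable def aa (n : ℕ) : ℝ :=
  if Even n then Real.sqrt (n ! : ℝ) / (2 ^ (n / 2) * ((n / 2)! : ℝ)) else 0

lemma aa_nonneg (n : ℕ) : 0 ≤ aa n := by unfold aa; split_ifs <;> positivity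

lemma aa_le (n : ℕ) : aa n ≤ 1 := by
  unfold aa
  split_ifs with h
  · obtain ⟨m, rfl⟩ := h
    have hm : (m + m) / 2 = m := by omega
    rw [hm, div_le_one (by positivity), Real.sqrt_le_left (by positivity)]
    have h1 : (m + m).choose m * m ! * m ! = (m + m)! := by
      have := Nat.choose_mul_factorial_mul_factorial (show m ≤ m + m by omega)
      rwa [Nat.add_sub_cancel] at this
    have h2 : (m + m).choose m ≤ 2 ^ (m + m) := Nat.choose_le_two_pow _ _
    have h3 : (m + m)! ≤ 2 ^ (m + m) * (m ! * m !) := by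
      rw [← h1, mul_assoc]; exact Nat.mul_le_mul_right _ h2
    have h4 : ((m + m)! : ℝ) ≤ 2 ^ (m + m) * (m ! * m !) := by exact_mod_cast h3
    refine h4.trans (le_of_eq ?_)
    rw [pow_add]; ring
  · norm_num

lemma aa_norm (n : ℕ) : ‖(aa n : ℂ)‖ ≤ 1 := by
  rw [Complex.norm_real, Real.norm_eq_abs, abs_of_nonneg (aa_nonneg n)]
  exact aa_le n

lemma hasSum_F (z : ℂ) :
    HasSum (fun n : ℕ => (aa n : ℂ) * z ^ n / (Real.sqrt (n ! : ℝ) : ℂ)) (Complex.exp (z ^ 2 / 2)) := by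
  have h1 : HasSum (fun m : ℕ => (z ^ 2 / 2) ^ m / (m ! : ℂ)) (Complex.exp (z ^ 2 / 2)) := by
    have := NormedSpace.expSeries_div_hasSum_exp (𝔸 := ℂ) (z ^ 2 / 2)
    rwa [← Complex.exp_eq_exp_ℂ] at this
  have hinj : Function.Injective (fun m : ℕ => 2 * m) := fun a b h => by simpa using h
  have h2 : ∀ x ∉ Set.range (fun m : ℕ => 2 * m),
      (aa x : ℂ) * z ^ x / (Real.sqrt (x ! : ℝ) : ℂ) = 0 := by
    intro x hx
    have : ¬ Even x := by
      intro he
      obtain ⟨m, rfl⟩ := he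
      exact hx ⟨m, by simp only; ring⟩
    unfold aa
    rw [if_neg this]; simp
  rw [← hinj.hasSum_iff h2]
  refine h1.congr_fun ?_ |> fun h => h
  intro m
  simp only [Function.comp]
  have he : Even (2 * m) := even_two_mul m
  have hm : 2 * m / 2 = m := by omega
  unfold aa
  rw [if_pos he, hm]
  have hs : (Real.sqrt ((2 * m)! : ℝ) : ℂ) ≠ 0 := by
    rw [Complex.ofReal_ne_zero]
    exact (Real.sqrt_pos.2 (by positivity)).ne'
  push_cast
  rw [pow_mul, div_pow]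
  have h3 : (2 : ℂ) ^ m ≠ 0 := pow_ne_zero _ two_ne_zero
  have h4 : (m ! : ℂ) ≠ 0 := by exact_mod_cast (Nat.factorial_pos m).ne'
  field_simp

/-! ## The domain and the majorant -/

/-- half-width of the rectangle -/
noncomputable def dl : ℝ := 1 / 100

/-- the thin rectangle `[-1,1] × [-1/100, 1/100]` -/
def KK : Set ℂ := {z | |z.re| ≤ 1 ∧ |z.im| ≤ dl}

/-- the cut-off index -/
noncomputable def NN (r : ℝ) : ℕ := ⌈21 * r ^ 2⌉₊

/-- the precision -/
noncomputable def eps (r : ℝ) : ℝ := Real.exp (-2 * dl ^ 2 * r ^ 2) / 15003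

lemma eps_pos (r : ℝ) : 0 < eps r := by unfold eps; positivity

lemma eps_le (r : ℝ) : eps r ≤ 1 := by
  unfold eps
  have : Real.exp (-2 * dl ^ 2 * r ^ 2) ≤ 1 := by
    rw [Real.exp_le_one_iff]
    have : 0 ≤ dl ^ 2 * r ^ 2 := by positivity
    linarith
  rw [div_le_one (by norm_num)]
  linarith

/-- the general term `ρ^n / √n!` -/
noncomputable def tm (ρ : ℝ) (n : ℕ) : ℝ := ρ ^ n / Real.sqrt (n ! : ℝ)

lemma tm_nonneg {ρ : ℝ} (hρ : 0 ≤ ρ) (n : ℕ) : 0 ≤ tm ρ n := by unfold tm; positivity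

lemma tm_sq (ρ : ℝ) (n : ℕ) : tm ρ n ^ 2 = (ρ ^ 2) ^ n / (n ! : ℝ) := by
  unfold tm
  rw [div_pow, Real.sq_sqrt (by positivity), ← pow_mul, ← pow_mul, mul_comm]

/-- domination of the general term -/
lemma tm_le (ρ : ℝ) (n : ℕ) :
    tm ρ n ≤ (Real.exp ((1 + dl ^ 2) * ρ ^ 2 / 2) * (1 / (1 + dl ^ 2)) ^ n +
      Real.exp (-((1 + dl ^ 2) * ρ ^ 2 / 2)) * (((1 + dl ^ 2) * ρ ^ 2) ^ n / (n ! : ℝ))) / 2 := by
  set E := Real.exp ((1 + dl ^ 2) * ρ ^ 2 / 2) with hE
  have hE0 : 0 < E := Real.exp_pos _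
  have hE' : Real.exp (-((1 + dl ^ 2) * ρ ^ 2 / 2)) = E⁻¹ := by rw [hE, Real.exp_neg]
  rw [hE']
  set A := E * (1 / (1 + dl ^ 2)) ^ n with hA
  set B := E⁻¹ * (((1 + dl ^ 2) * ρ ^ 2) ^ n / (n ! : ℝ)) with hB
  have hA0 : 0 ≤ A := by positivity
  have hB0 : 0 ≤ B := by positivity
  have hAB : A * B = tm ρ n ^ 2 := by
    rw [tm_sq, hA, hB, mul_pow, one_div, inv_pow]
    have : (1 + dl ^ 2) ^ n ≠ 0 := by positivity
    field_simp
  have h1 : tm ρ n ^ 2 ≤ ((A + B) / 2) ^ 2 := by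
    rw [← hAB]; nlinarith [sq_nonneg (A - B)]
  exact (le_abs_self _).trans (abs_le_of_sq_le_sq h1 (by positivity))

lemma tm_summable (ρ : ℝ) : Summable (fun n =>
    (Real.exp ((1 + dl ^ 2) * ρ ^ 2 / 2) * (1 / (1 + dl ^ 2)) ^ n +
      Real.exp (-((1 + dl ^ 2) * ρ ^ 2 / 2)) * (((1 + dl ^ 2) * ρ ^ 2) ^ n / (n ! : ℝ))) / 2) := by
  refine Summable.div_const (Summable.add ?_ ?_) 2
  · refine (summable_geometric_of_lt_one (by positivity) ?_).mul_left _
    rw [div_lt_one (by positivity)]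
    unfold dl; norm_num
  · exact (Real.summable_pow_div_factorial _).mul_left _

lemma tm_tsum (ρ : ℝ) : ∑' n, (Real.exp ((1 + dl ^ 2) * ρ ^ 2 / 2) * (1 / (1 + dl ^ 2)) ^ n +
      Real.exp (-((1 + dl ^ 2) * ρ ^ 2 / 2)) * (((1 + dl ^ 2) * ρ ^ 2) ^ n / (n ! : ℝ))) / 2
      = 5001 * Real.exp ((1 + dl ^ 2) * ρ ^ 2 / 2) := by
  have hg : HasSum (fun n : ℕ => (1 / (1 + dl ^ 2)) ^ n) (10001 : ℝ) := by
    have := hasSum_geometric_of_lt_one (r := 1 / (1 + dl ^ 2)) (by positivity) (by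
      rw [div_lt_one (by positivity)]
      unfold dl; norm_num)
    have e : (1 - 1 / (1 + dl ^ 2))⁻¹ = 10001 := by unfold dl; norm_num
    rwa [e] at this
  have he : HasSum (fun n : ℕ => ((1 + dl ^ 2) * ρ ^ 2) ^ n / (n ! : ℝ))
      (Real.exp ((1 + dl ^ 2) * ρ ^ 2)) := by
    have := NormedSpace.expSeries_div_hasSum_exp (𝔸 := ℝ) ((1 + dl ^ 2) * ρ ^ 2)
    rwa [← Real.exp_eq_exp_ℝ] at this
  have h := ((hg.mul_left (Real.exp ((1 + dl ^ 2) * ρ ^ 2 / 2))).add
    (he.mul_left (Real.exp (-((1 + dl ^ 2) * ρ ^ 2 / 2))))).div_const 2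
  rw [h.tsum_eq, ← Real.exp_add]
  have : -((1 + dl ^ 2) * ρ ^ 2 / 2) + (1 + dl ^ 2) * ρ ^ 2 = (1 + dl ^ 2) * ρ ^ 2 / 2 := by ring
  rw [this]
  ring

/-- beyond the cut-off the general term is at most `e^{-n}` -/
lemma tm_tail {r ρ : ℝ} (hr : 1 ≤ r) (_hρ0 : 0 ≤ ρ) (hρ : ρ ^ 2 ≤ (1 + dl ^ 2) * r ^ 2) {n : ℕ}
    (hn : NN r ≤ n) : tm ρ n ≤ Real.exp (-n) := by
  have hn1 : 21 * r ^ 2 ≤ n := (Nat.le_ceil _).trans (by exact_mod_cast hn)
  have hn0 : (0 : ℝ) < n := by nlinarith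
  have h1 : (n : ℝ) ^ n / (n ! : ℝ) ≤ Real.exp n := Real.pow_div_factorial_le_exp _ hn0.le n
  have h2 : ρ ^ 2 ≤ n / (21 / (1 + dl ^ 2)) := by
    rw [le_div_iff₀ (by positivity)]
    have : ρ ^ 2 * (21 / (1 + dl ^ 2)) ≤ (1 + dl ^ 2) * r ^ 2 * (21 / (1 + dl ^ 2)) :=
      mul_le_mul_of_nonneg_right hρ (by positivity)
    refine this.trans (le_trans (le_of_eq ?_) hn1)
    have : (1 + dl ^ 2) ≠ 0 := by positivity
    field_simp
  have hc : Real.exp 3 ≤ 21 / (1 + dl ^ 2) := by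
    have h3 : Real.exp 3 = Real.exp 1 ^ 3 := by rw [← Real.exp_nat_mul]; norm_num
    rw [h3]
    have h4 := Real.exp_one_lt_d9
    have h5 : Real.exp 1 ^ 3 ≤ 2.7182818286 ^ 3 := pow_le_pow_left₀ (Real.exp_pos _).le h4.le 3
    refine h5.trans ?_
    unfold dl; norm_num
  have h6 : ρ ^ 2 ≤ n * Real.exp (-3) := by
    refine h2.trans ?_
    rw [div_le_iff₀ (by positivity), Real.exp_neg, mul_assoc]
    refine le_mul_of_one_le_right hn0.le ?_
    rw [inv_mul_eq_div, one_le_div (Real.exp_pos _)]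
    exact hc
  have h7 : tm ρ n ^ 2 ≤ Real.exp (-n) ^ 2 := by
    rw [tm_sq]
    calc (ρ ^ 2) ^ n / (n ! : ℝ) ≤ (n * Real.exp (-3)) ^ n / (n ! : ℝ) :=
          div_le_div_of_nonneg_right (pow_le_pow_left₀ (by positivity) h6 n) (by positivity)
      _ = ((n : ℝ) ^ n / (n ! : ℝ)) * Real.exp (-3) ^ n := by rw [mul_pow]; ring
      _ ≤ Real.exp n * Real.exp (-3) ^ n := mul_le_mul_of_nonneg_right h1 (by positivity)
      _ = Real.exp (-n) ^ 2 := by
          rw [← Real.exp_nat_mul, ← Real.exp_nat_mul, ← Real.exp_add]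
          congr 1; push_cast; ring
  exact (le_abs_self _).trans (abs_le_of_sq_le_sq h7 (Real.exp_pos _).le)

/-- bounds for the coefficients of `f - F` on the good event -/
noncomputable def bb (r : ℝ) (n : ℕ) : ℝ := if n < NN r then eps r else n + 2

lemma bb_term {r ρ : ℝ} (hr : 1 ≤ r) (hρ0 : 0 ≤ ρ) (hρ : ρ ^ 2 ≤ (1 + dl ^ 2) * r ^ 2) (n : ℕ) :
    bb r n * tm ρ n ≤ eps r * ((Real.exp ((1 + dl ^ 2) * ρ ^ 2 / 2) * (1 / (1 + dl ^ 2)) ^ n +
      Real.exp (-((1 + dl ^ 2) * ρ ^ 2 / 2)) * (((1 + dl ^ 2) * ρ ^ 2) ^ n / (n ! : ℝ))) / 2) +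
      3 * Real.exp (-(NN r : ℝ) / 4) * Real.exp (-(1 / 4)) ^ n := by
  unfold bb
  split_ifs with h
  · have h1 := mul_le_mul_of_nonneg_left (tm_le ρ n) (eps_pos r).le
    have h2 : 0 ≤ 3 * Real.exp (-(NN r : ℝ) / 4) * Real.exp (-(1 / 4)) ^ n := by positivity
    linarith
  · have hn : NN r ≤ n := not_lt.1 h
    have h1 := tm_tail hr hρ0 hρ hn
    have h2 : 0 ≤ eps r * ((Real.exp ((1 + dl ^ 2) * ρ ^ 2 / 2) * (1 / (1 + dl ^ 2)) ^ n +
      Real.exp (-((1 + dl ^ 2) * ρ ^ 2 / 2)) * (((1 + dl ^ 2) * ρ ^ 2) ^ n / (n ! : ℝ))) / 2) := by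
      have := eps_pos r
      positivity
    have h3 : (n : ℝ) + 2 ≤ 3 * Real.exp (n / 2) := by
      have := Real.add_one_le_exp ((n : ℝ) / 2)
      have : (0 : ℝ) ≤ n := Nat.cast_nonneg n
      linarith
    have h4 : ((n : ℝ) + 2) * tm ρ n ≤ 3 * Real.exp (n / 2) * Real.exp (-n) :=
      mul_le_mul h3 h1 (tm_nonneg hρ0 n) (by positivity)
    have h5 : 3 * Real.exp (n / 2) * Real.exp (-n) ≤
        3 * Real.exp (-(NN r : ℝ) / 4) * Real.exp (-(1 / 4)) ^ n := by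
      rw [mul_assoc, mul_assoc, ← Real.exp_add, ← Real.exp_nat_mul, ← Real.exp_add]
      refine mul_le_mul_of_nonneg_left (Real.exp_le_exp.2 ?_) (by norm_num)
      have : (NN r : ℝ) ≤ n := by exact_mod_cast hn
      linarith
    linarith

lemma maj_summable (r ρ : ℝ) : Summable (fun n : ℕ =>
    eps r * ((Real.exp ((1 + dl ^ 2) * ρ ^ 2 / 2) * (1 / (1 + dl ^ 2)) ^ n +
      Real.exp (-((1 + dl ^ 2) * ρ ^ 2 / 2)) * (((1 + dl ^ 2) * ρ ^ 2) ^ n / (n ! : ℝ))) / 2) +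
      3 * Real.exp (-(NN r : ℝ) / 4) * Real.exp (-(1 / 4)) ^ n) := by
  refine Summable.add ((tm_summable ρ).mul_left _) ?_
  refine (summable_geometric_of_lt_one (Real.exp_pos _).le ?_).mul_left _
  rw [Real.exp_lt_one_iff]; norm_num

lemma exp_quarter : (1 - Real.exp (-(1 / 4)))⁻¹ ≤ 5 := by
  have h1 : Real.exp (-(1 / 4)) ≤ 4 / 5 := by
    rw [Real.exp_neg]
    have h2 : (5 / 4 : ℝ) ≤ Real.exp (1 / 4) := by
      have := Real.add_one_le_exp (1 / 4 : ℝ)
      linarith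
    rw [inv_eq_one_div, div_le_div_iff₀ (Real.exp_pos _) (by norm_num)]
    linarith
  rw [inv_eq_one_div, div_le_iff₀ (by linarith)]
  linarith

lemma maj_tsum (r ρ : ℝ) : ∑' n : ℕ,
    (eps r * ((Real.exp ((1 + dl ^ 2) * ρ ^ 2 / 2) * (1 / (1 + dl ^ 2)) ^ n +
      Real.exp (-((1 + dl ^ 2) * ρ ^ 2 / 2)) * (((1 + dl ^ 2) * ρ ^ 2) ^ n / (n ! : ℝ))) / 2) +
      3 * Real.exp (-(NN r : ℝ) / 4) * Real.exp (-(1 / 4)) ^ n) ≤
    eps r * (5001 * Real.exp ((1 + dl ^ 2) * ρ ^ 2 / 2)) + 15 * Real.exp (-(NN r : ℝ) / 4) := by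
  have hlt : Real.exp (-(1 / 4)) < 1 := by rw [Real.exp_lt_one_iff]; norm_num
  have hs := summable_geometric_of_lt_one (Real.exp_pos (-(1 / 4))).le hlt
  rw [((tm_summable ρ).mul_left _).tsum_add (hs.mul_left _), tsum_mul_left, tm_tsum,
    tsum_mul_left, tsum_geometric_of_lt_one (Real.exp_pos _).le hlt]
  have := exp_quarter
  have h2 : 0 < Real.exp (-(NN r : ℝ) / 4) := Real.exp_pos _
  nlinarith

/-- the good event forces `f ≠ 0` on `r K` -/
lemma no_zero {r : ℝ} (hr : 1 ≤ r) {ξ : ℕ → ℂ} (hξ : ∀ n, ‖ξ n - (aa n : ℂ)‖ ≤ bb r n) {z : ℂ}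
    (hz : z ∈ KK) : gef ξ ((r : ℂ) * z) ≠ 0 := by
  have hr0 : 0 < r := by linarith
  set w : ℂ := (r : ℂ) * z with hw
  obtain ⟨hz1, hz2⟩ := hz
  have hre : w.re = r * z.re := by rw [hw]; simp
  have him : w.im = r * z.im := by rw [hw]; simp
  have hre2 : w.re ^ 2 ≤ r ^ 2 := by
    rw [hre, mul_pow]
    have : z.re ^ 2 ≤ 1 := by rw [← sq_abs]; nlinarith [abs_nonneg z.re]
    nlinarith [sq_nonneg r]
  have him2 : w.im ^ 2 ≤ dl ^ 2 * r ^ 2 := by
    rw [him, mul_pow]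
    have : z.im ^ 2 ≤ dl ^ 2 := by
      rw [← sq_abs z.im]
      exact pow_le_pow_left₀ (abs_nonneg _) hz2 2
    nlinarith [sq_nonneg r]
  have hnorm : ‖w‖ ^ 2 = w.re ^ 2 + w.im ^ 2 := by
    rw [Complex.sq_norm, Complex.normSq_apply]; ring
  have hρ : ‖w‖ ^ 2 ≤ (1 + dl ^ 2) * r ^ 2 := by rw [hnorm]; nlinarith
  -- termwise bound
  have hterm : ∀ n, ‖(ξ n - (aa n : ℂ)) * w ^ n / (Real.sqrt (n ! : ℝ) : ℂ)‖ ≤
      bb r n * tm ‖w‖ n := by
    intro n
    rw [norm_div, norm_mul, norm_pow, Complex.norm_real, Real.norm_eq_abs,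
      abs_of_nonneg (Real.sqrt_nonneg _), mul_div_assoc]
    exact mul_le_mul_of_nonneg_right (hξ n) (by positivity)
  have hmaj := maj_summable r ‖w‖
  have hle : ∀ n, ‖(ξ n - (aa n : ℂ)) * w ^ n / (Real.sqrt (n ! : ℝ) : ℂ)‖ ≤
      eps r * ((Real.exp ((1 + dl ^ 2) * ‖w‖ ^ 2 / 2) * (1 / (1 + dl ^ 2)) ^ n +
      Real.exp (-((1 + dl ^ 2) * ‖w‖ ^ 2 / 2)) * (((1 + dl ^ 2) * ‖w‖ ^ 2) ^ n / (n ! : ℝ))) / 2) +
      3 * Real.exp (-(NN r : ℝ) / 4) * Real.exp (-(1 / 4)) ^ n := fun n =>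
    (hterm n).trans (bb_term hr (norm_nonneg _) hρ n)
  have hsumn : Summable fun n => ‖(ξ n - (aa n : ℂ)) * w ^ n / (Real.sqrt (n ! : ℝ) : ℂ)‖ :=
    Summable.of_nonneg_of_le (fun n => norm_nonneg _) hle hmaj
  have hsum : Summable fun n => (ξ n - (aa n : ℂ)) * w ^ n / (Real.sqrt (n ! : ℝ) : ℂ) :=
    hsumn.of_norm
  have hF := hasSum_F w
  have htot : gef ξ w = Complex.exp (w ^ 2 / 2) +
      ∑' n, (ξ n - (aa n : ℂ)) * w ^ n / (Real.sqrt (n ! : ℝ) : ℂ) := by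
    unfold gef
    have := (hF.add hsum.hasSum).tsum_eq
    rw [← this]
    refine tsum_congr fun n => ?_
    ring
  have hbound : ‖∑' n, (ξ n - (aa n : ℂ)) * w ^ n / (Real.sqrt (n ! : ℝ) : ℂ)‖ ≤
      eps r * (5001 * Real.exp ((1 + dl ^ 2) * ‖w‖ ^ 2 / 2)) + 15 * Real.exp (-(NN r : ℝ) / 4) :=
    ((norm_tsum_le_tsum_norm hsumn).trans (hsumn.tsum_le_tsum hle hmaj)).trans (maj_tsum r ‖w‖)
  have hFn : ‖Complex.exp (w ^ 2 / 2)‖ = Real.exp ((w.re ^ 2 - w.im ^ 2) / 2) := by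
    rw [Complex.norm_exp]
    congr 1
    rw [pow_two]
    simp [Complex.mul_re]
    ring
  set X := Real.exp ((w.re ^ 2 - w.im ^ 2) / 2) with hX
  have hX0 : 0 < X := Real.exp_pos _
  have hhead : eps r * (5001 * Real.exp ((1 + dl ^ 2) * ‖w‖ ^ 2 / 2)) ≤ X / 3 := by
    have h1 : Real.exp (-2 * dl ^ 2 * r ^ 2) * Real.exp ((1 + dl ^ 2) * ‖w‖ ^ 2 / 2) ≤ X := by
      rw [hX, ← Real.exp_add]
      apply Real.exp_le_exp.2
      rw [hnorm]
      have hd : dl ^ 2 = 1 / 10000 := by unfold dl; norm_num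
      rw [hd] at him2 ⊢
      nlinarith
    unfold eps
    have h2 : Real.exp (-2 * dl ^ 2 * r ^ 2) / 15003 *
        (5001 * Real.exp ((1 + dl ^ 2) * ‖w‖ ^ 2 / 2)) =
        (Real.exp (-2 * dl ^ 2 * r ^ 2) * Real.exp ((1 + dl ^ 2) * ‖w‖ ^ 2 / 2)) / 3 := by ring
    rw [h2]
    linarith
  have htail : 15 * Real.exp (-(NN r : ℝ) / 4) ≤ X / 3 := by
    have h1 : Real.exp (-(NN r : ℝ) / 4) ≤ Real.exp (-5) * X := by
      rw [hX, ← Real.exp_add]
      apply Real.exp_le_exp.2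
      have h2 : 21 * r ^ 2 ≤ NN r := Nat.le_ceil _
      have hd : dl ^ 2 = 1 / 10000 := by unfold dl; norm_num
      rw [hd] at him2
      nlinarith [sq_nonneg w.re]
    have h3 : Real.exp (-5) ≤ 1 / 45 := by
      have h4 : Real.exp 5 = Real.exp 1 ^ 5 := by rw [← Real.exp_nat_mul]; norm_num
      rw [Real.exp_neg, h4, inv_eq_one_div]
      apply one_div_le_one_div_of_le (by norm_num)
      have h5 := Real.exp_one_gt_d9
      have h6 : (2.7182818283 : ℝ) ^ 5 ≤ Real.exp 1 ^ 5 := pow_le_pow_left₀ (by norm_num) h5.le 5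
      refine le_trans ?_ h6
      norm_num
    nlinarith
  intro h0
  rw [h0] at htot
  have h1 : ‖Complex.exp (w ^ 2 / 2)‖ =
      ‖∑' n, (ξ n - (aa n : ℂ)) * w ^ n / (Real.sqrt (n ! : ℝ) : ℂ)‖ := by
    rw [← norm_neg]
    congr 1
    linear_combination htot
  rw [hFn] at h1
  linarith

/-! ## Probability of the good event -/

/-- Weierstrass' inequality -/
lemma weierstrass (x : ℕ → ℝ) (hx0 : ∀ i, 0 ≤ x i) (hx1 : ∀ i, x i ≤ 1) (S : Finset ℕ) :
    1 - ∑ i ∈ S, x i ≤ ∏ i ∈ S, (1 - x i) := by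
  induction S using Finset.induction_on with
  | empty => simp
  | insert a S ha ih =>
    rw [Finset.sum_insert ha, Finset.prod_insert ha]
    have h1 : 0 ≤ ∏ i ∈ S, (1 - x i) := Finset.prod_nonneg fun i _ => by have := hx1 i; linarith
    have h2 : ∏ i ∈ S, (1 - x i) ≤ 1 :=
      Finset.prod_le_one (fun i _ => by have := hx1 i; linarith) fun i _ => by
        have := hx0 i; linarith
    have := hx0 a
    nlinarith

/-- the individual good sets -/
def CC (r : ℝ) (n : ℕ) : Set ℂ :=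
  if n < NN r then Metric.ball (aa n : ℂ) (eps r) else {w | ‖w‖ ≤ (n + 1 : ℝ)}

lemma CC_meas (r : ℝ) (n : ℕ) : MeasurableSet (CC r n) := by
  unfold CC
  split_ifs
  · exact measurableSet_ball
  · exact measurableSet_le measurable_norm measurable_const

lemma CC_bound {r : ℝ} {n : ℕ} {w : ℂ} (hw : w ∈ CC r n) : ‖w - (aa n : ℂ)‖ ≤ bb r n := by
  unfold CC at hw
  unfold bb
  split_ifs at hw ⊢
  · have : ‖w - (aa n : ℂ)‖ < eps r := by simpa [dist_eq_norm] using hw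
    exact this.le
  · have h1 : ‖w‖ ≤ (n + 1 : ℝ) := hw
    have h2 := aa_norm n
    calc ‖w - (aa n : ℂ)‖ ≤ ‖w‖ + ‖(aa n : ℂ)‖ := norm_sub_le _ _
      _ ≤ n + 2 := by linarith

/-- lower bounds of the masses -/
noncomputable def cm (r : ℝ) (n : ℕ) : ℝ :=
  if n < NN r then Real.exp (-4) * eps r ^ 2 else 1 - (1 / 4) * (1 / 2) ^ n

lemma cm_pos (r : ℝ) (n : ℕ) : 0 < cm r n := by
  unfold cm
  split_ifs
  · have := eps_pos r
    positivity
  · have : (1 / 2 : ℝ) ^ n ≤ 1 := pow_le_one₀ (by norm_num) (by norm_num)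
    linarith

lemma cm_le {r : ℝ} (hr : 1 ≤ r) (n : ℕ) : ENNReal.ofReal (cm r n) ≤ stdC (CC r n) := by
  unfold cm CC
  split_ifs with h
  · exact stdC_ball (aa_norm n) (eps_pos r) (eps_le r)
  · refine stdC_closed ?_
    have h1 : NN r ≤ n := not_lt.1 h
    have h2 : 21 * r ^ 2 ≤ NN r := Nat.le_ceil _
    have h3 : (21 : ℝ) ≤ NN r := by nlinarith
    have h4 : 21 ≤ NN r := by exact_mod_cast h3
    omega

/-- finite products of the masses -/
lemma prod_cm (r : ℝ) (M : ℕ) :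
    (Real.exp (-4) * eps r ^ 2) ^ NN r / 2 ≤ ∏ n ∈ range M, cm r n := by
  set c := Real.exp (-4) * eps r ^ 2 with hc
  have hc0 : 0 < c := by have := eps_pos r; positivity
  have hc1 : c ≤ 1 := by
    have h1 : Real.exp (-4) ≤ 1 := by rw [Real.exp_le_one_iff]; norm_num
    have h2 : eps r ^ 2 ≤ 1 := pow_le_one₀ (eps_pos r).le (eps_le r)
    have h3 := Real.exp_pos (-4)
    have h4 := sq_nonneg (eps r)
    nlinarith
  set x : ℕ → ℝ := fun n => (1 / 4) * (1 / 2) ^ n with hx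
  have hx0 : ∀ i, 0 ≤ x i := fun i => by rw [hx]; positivity
  have hx1 : ∀ i, x i ≤ 1 := fun i => by
    have : (1 / 2 : ℝ) ^ i ≤ 1 := pow_le_one₀ (by norm_num) (by norm_num)
    simp only [hx]
    linarith
  have hsum : ∀ S : Finset ℕ, ∑ i ∈ S, x i ≤ 1 / 2 := by
    intro S
    have h1 : Summable x := (summable_geometric_of_lt_one (by norm_num) (by norm_num)).mul_left _
    have h2 : ∑' i, x i = 1 / 2 := by
      rw [hx, tsum_mul_left, tsum_geometric_of_lt_one (by norm_num) (by norm_num)]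
      norm_num
    rw [← h2]
    exact h1.sum_le_tsum S fun i _ => hx0 i
  have hle : ∏ n ∈ range M, (if n < NN r then c else 1) * (1 - x n) ≤ ∏ n ∈ range M, cm r n := by
    refine Finset.prod_le_prod (fun n _ => ?_) fun n _ => ?_
    · refine mul_nonneg (by split_ifs <;> linarith) ?_
      have := hx1 n; linarith
    · unfold cm
      split_ifs
      · have := hx0 n
        rw [← hc]
        nlinarith
      · rw [one_mul]
  refine le_trans ?_ hle
  rw [Finset.prod_mul_distrib]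
  have h1 : c ^ NN r ≤ ∏ n ∈ range M, (if n < NN r then c else 1) := by
    rw [Finset.prod_ite, Finset.prod_const_one, mul_one, Finset.prod_const]
    refine pow_le_pow_of_le_one hc0.le hc1 ?_
    calc ((range M).filter fun n => n < NN r).card ≤ (range (NN r)).card := by
          refine Finset.card_le_card fun n hn => ?_
          rw [Finset.mem_filter] at hn
          exact Finset.mem_range.2 hn.2
      _ = NN r := Finset.card_range _
  have h2 : 1 / 2 ≤ ∏ n ∈ range M, (1 - x n) := by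
    have := weierstrass x hx0 hx1 (range M)
    have := hsum (range M)
    linarith
  have h3 : 0 ≤ c ^ NN r := by positivity
  calc c ^ NN r / 2 = c ^ NN r * (1 / 2) := by ring
    _ ≤ _ := mul_le_mul h1 h2 (by norm_num) (h3.trans h1)

section prob

variable {Ω : Type*} [MeasurableSpace Ω] {P : Measure Ω} {ξ : ℕ → Ω → ℂ}

lemma hole_lower (h : IsGaussianSeq P ξ) {r : ℝ} (hr : 1 ≤ r) :
    (Real.exp (-4) * eps r ^ 2) ^ NN r / 2 ≤
      P.real {ω | ∀ z ∈ KK, gef (fun n => ξ n ω) ((r : ℂ) * z) ≠ 0} := by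
  have hP : IsProbabilityMeasure P := h.indep.isProbabilityMeasure
  set s : ℕ → Set Ω := fun M => ⋂ n ∈ range M, ξ n ⁻¹' CC r n with hs
  have hsm : ∀ M, MeasurableSet (s M) := fun M =>
    Finset.measurableSet_biInter _ fun n _ => h.meas n (CC_meas r n)
  have hanti : Antitone s := by
    intro M M' hMM
    refine Set.biInter_subset_biInter_left fun n hn => ?_
    have : n ∈ range M := hn
    rw [Finset.mem_range] at this
    exact Finset.mem_range.2 (by omega)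
  have hPs : ∀ M, ENNReal.ofReal ((Real.exp (-4) * eps r ^ 2) ^ NN r / 2) ≤ P (s M) := by
    intro M
    rw [hs]
    simp only
    rw [h.indep.measure_inter_preimage_eq_mul (range M) (sets := fun n => CC r n)
      (fun n _ => CC_meas r n)]
    refine (ENNReal.ofReal_le_ofReal (prod_cm r M)).trans ?_
    rw [ENNReal.ofReal_prod_of_nonneg fun n _ => (cm_pos r n).le]
    refine Finset.prod_le_prod' fun n _ => ?_
    rw [← Measure.map_apply (h.meas n) (CC_meas r n), h.law n]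
    exact cm_le hr n
  have hlim := tendsto_measure_iInter_atTop (μ := P) (s := s)
    (fun M => (hsm M).nullMeasurableSet) hanti ⟨0, measure_ne_top _ _⟩
  have hle : ENNReal.ofReal ((Real.exp (-4) * eps r ^ 2) ^ NN r / 2) ≤ P (⋂ M, s M) :=
    ge_of_tendsto hlim (Eventually.of_forall fun M => hPs M)
  have hsub : (⋂ M, s M) ⊆ {ω | ∀ z ∈ KK, gef (fun n => ξ n ω) ((r : ℂ) * z) ≠ 0} := by
    intro ω hω z hz
    refine no_zero hr (fun n => ?_) hz
    refine CC_bound ?_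
    have h1 := Set.mem_iInter.1 hω (n + 1)
    exact Set.mem_iInter₂.1 h1 n (Finset.self_mem_range_succ n)
  have h1 := hle.trans (measure_mono hsub)
  have h2 := (ENNReal.toReal_le_toReal ENNReal.ofReal_ne_top (measure_ne_top P _)).2 h1
  rwa [ENNReal.toReal_ofReal (by have := eps_pos r; positivity)] at h2

lemma pH_upper (h : IsGaussianSeq P ξ) {r : ℝ} (hr : 1 ≤ r) :
    pH P ξ KK r ≤ (21 * r ^ 2 + 1) * (4 + 4 * dl ^ 2 * r ^ 2 + 2 * Real.log 15003) + Real.log 2 := by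
  have h1 := hole_lower h hr
  have h0 : 0 < (Real.exp (-4) * eps r ^ 2) ^ NN r / 2 := by have := eps_pos r; positivity
  have h2 := Real.log_le_log h0 h1
  have he := eps_pos r
  rw [Real.log_div (by positivity) (by norm_num), Real.log_pow, Real.log_mul (by positivity)
    (by positivity), Real.log_exp, Real.log_pow] at h2
  have h3 : Real.log (eps r) = -2 * dl ^ 2 * r ^ 2 - Real.log 15003 := by
    unfold eps
    rw [Real.log_div (Real.exp_pos _).ne' (by norm_num), Real.log_exp]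
  rw [h3] at h2
  have h4 : (NN r : ℝ) ≤ 21 * r ^ 2 + 1 := (Nat.ceil_lt_add_one (by positivity)).le
  unfold pH
  have h5 : 0 ≤ 4 + 4 * dl ^ 2 * r ^ 2 + 2 * Real.log 15003 := by
    have := Real.log_nonneg (show (1 : ℝ) ≤ 15003 by norm_num)
    positivity
  have h6 := mul_le_mul_of_nonneg_right h4 h5
  push_cast at h2
  nlinarith

lemma pH_eventually (h : IsGaussianSeq P ξ) : ∀ᶠ r in atTop, pH P ξ KK r / r ^ 4 ≤ 1 / 100 := by
  have h1 : Tendsto (fun r : ℝ => (21 + r⁻¹ ^ 2) * ((4 + 2 * Real.log 15003) * r⁻¹ ^ 2 + 4 * dl ^ 2) +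
      Real.log 2 * r⁻¹ ^ 4) atTop (𝓝 ((21 + 0 ^ 2) * ((4 + 2 * Real.log 15003) * 0 ^ 2 + 4 * dl ^ 2) +
      Real.log 2 * 0 ^ 4)) := by
    have h2 : Tendsto (fun r : ℝ => r⁻¹) atTop (𝓝 0) := tendsto_inv_atTop_zero
    exact ((tendsto_const_nhds.add (h2.pow 2)).mul (((h2.pow 2).const_mul _).add_const _)).add
      ((h2.pow 4).const_mul _)
  have h3 : (21 + (0 : ℝ) ^ 2) * ((4 + 2 * Real.log 15003) * 0 ^ 2 + 4 * dl ^ 2) +
      Real.log 2 * 0 ^ 4 < 1 / 100 := by unfold dl; norm_num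
  filter_upwards [h1.eventually (gt_mem_nhds h3), eventually_ge_atTop 1] with r hr1 hr2
  have hr0 : 0 < r := by linarith
  refine le_trans ?_ hr1.le
  rw [div_le_iff₀ (by positivity)]
  refine (pH_upper h hr2).trans (le_of_eq ?_)
  field_simp
  ring

end prob

/-! ## Capacity of the rectangle -/

/-- equally spaced points -/
noncomputable def pt (m : ℕ) (i : Fin (m + 1)) : ℂ := ((-1 + 2 * (i : ℕ) / m : ℝ) : ℂ)

lemma pt_mem {m : ℕ} (hm : 1 ≤ m) (i : Fin (m + 1)) : pt m i ∈ KK := by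
  have hm' : (0 : ℝ) < m := by exact_mod_cast hm
  have hi : ((i : ℕ) : ℝ) ≤ m := by
    have := i.2
    exact_mod_cast (by omega : (i : ℕ) ≤ m)
  have hi0 : (0 : ℝ) ≤ (i : ℕ) := Nat.cast_nonneg _
  unfold KK pt
  refine ⟨?_, ?_⟩
  · rw [Complex.ofReal_re, abs_le]
    have h1 : 0 ≤ 2 * ((i : ℕ) : ℝ) / m := by positivity
    have h2 : 2 * ((i : ℕ) : ℝ) / m ≤ 2 := by rw [div_le_iff₀ hm']; linarith
    constructor <;> linarith
  · rw [Complex.ofReal_im, abs_zero]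
    unfold dl; norm_num

lemma pt_dist {m : ℕ} (hm : 1 ≤ m) (i j : Fin (m + 1)) :
    ‖pt m i - pt m j‖ = 2 / m * |((i : ℕ) : ℝ) - (j : ℕ)| := by
  have hm' : (0 : ℝ) < m := by exact_mod_cast hm
  unfold pt
  rw [← Complex.ofReal_sub, Complex.norm_real, Real.norm_eq_abs]
  have : (-1 + 2 * ((i : ℕ) : ℝ) / m) - (-1 + 2 * ((j : ℕ) : ℝ) / m) =
      2 / m * (((i : ℕ) : ℝ) - (j : ℕ)) := by ring
  rw [this, abs_mul, abs_of_pos (by positivity)]

lemma prod_dist {m : ℕ} (i : ℕ) (hi : i ≤ m) (c : ℝ) :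
    ∏ j ∈ range (m + 1), (if j = i then 1 else c * |(i : ℝ) - j|) =
      c ^ m * ((i ! : ℝ) * ((m - i)! : ℝ)) := by
  have h1 : m + 1 = i + ((m - i) + 1) := by omega
  rw [h1, Finset.prod_range_add, Finset.prod_range_succ']
  have e1 : ∏ j ∈ range i, (if j = i then 1 else c * |(i : ℝ) - j|) = c ^ i * (i ! : ℝ) := by
    rw [← Finset.prod_range_reflect]
    have : ∀ j ∈ range i, (if i - 1 - j = i then 1 else c * |(i : ℝ) - ((i - 1 - j : ℕ) : ℝ)|) =
        c * ((j + 1 : ℕ) : ℝ) := by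
      intro j hj
      rw [Finset.mem_range] at hj
      rw [if_neg (by omega)]
      have h2 : ((i - 1 - j : ℕ) : ℝ) = i - 1 - j := by
        rw [Nat.cast_sub (by omega), Nat.cast_sub (by omega)]; push_cast; ring
      rw [h2]
      have h3 : (i : ℝ) - (i - 1 - j) = j + 1 := by ring
      rw [h3, abs_of_pos (by positivity)]
      push_cast
      ring
    rw [Finset.prod_congr rfl this, Finset.prod_mul_distrib, Finset.prod_const, Finset.card_range,
      ← Nat.cast_prod, Finset.prod_range_add_one_eq_factorial]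
  have e2 : ∏ k ∈ range (m - i), (if i + (k + 1) = i then 1 else c * |(i : ℝ) - ((i + (k + 1) : ℕ) : ℝ)|)
      = c ^ (m - i) * ((m - i)! : ℝ) := by
    have : ∀ k ∈ range (m - i), (if i + (k + 1) = i then 1 else
        c * |(i : ℝ) - ((i + (k + 1) : ℕ) : ℝ)|) = c * ((k + 1 : ℕ) : ℝ) := by
      intro k _
      rw [if_neg (by omega)]
      push_cast
      have h3 : (i : ℝ) - (i + (k + 1)) = -((k : ℝ) + 1) := by ring
      rw [h3, abs_neg, abs_of_pos (by positivity)]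
    rw [Finset.prod_congr rfl this, Finset.prod_mul_distrib, Finset.prod_const, Finset.card_range,
      ← Nat.cast_prod, Finset.prod_range_add_one_eq_factorial]
  rw [e1, e2, add_zero, if_pos rfl, mul_one]
  have e3 : c ^ m = c ^ i * c ^ (m - i) := by rw [← pow_add]; congr 1; omega
  have e4 : i + (m - i + 1) - 1 = m := by omega
  rw [e3]
  ring

lemma pt_prod {m : ℕ} (hm : 1 ≤ m) (i : Fin (m + 1)) :
    Real.exp (-(m : ℝ)) ≤ ∏ j ∈ univ.erase i, ‖pt m i - pt m j‖ := by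
  have hm' : (0 : ℝ) < m := by exact_mod_cast hm
  have h1 : ∏ j ∈ univ.erase i, ‖pt m i - pt m j‖ =
      ∏ j : Fin (m + 1), (if (j : ℕ) = (i : ℕ) then 1 else 2 / m * |((i : ℕ) : ℝ) - (j : ℕ)|) := by
    rw [← Finset.mul_prod_erase univ (fun j : Fin (m + 1) => (if (j : ℕ) = (i : ℕ) then (1 : ℝ) else
      2 / m * |((i : ℕ) : ℝ) - (j : ℕ)|)) (Finset.mem_univ i), if_pos rfl, one_mul]
    refine Finset.prod_congr rfl fun j hj => ?_
    rw [if_neg (fun h => Finset.ne_of_mem_erase hj (Fin.ext h)), pt_dist hm]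
  have hi : (i : ℕ) ≤ m := by have := i.2; omega
  rw [h1, Fin.prod_univ_eq_prod_range (fun j : ℕ => (if j = (i : ℕ) then (1 : ℝ) else
      2 / m * |((i : ℕ) : ℝ) - (j : ℕ)|)) (m + 1), prod_dist (i : ℕ) hi]
  -- `i! (m-i)! ≥ m! / 2^m ≥ (m/e)^m / 2^m`
  have h2 : (m.choose i : ℝ) * ((i : ℕ)! : ℝ) * ((m - i)! : ℝ) = (m ! : ℝ) := by
    exact_mod_cast Nat.choose_mul_factorial_mul_factorial hi
  have h3 : (m.choose i : ℝ) ≤ 2 ^ m := by exact_mod_cast Nat.choose_le_two_pow m i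
  have h4 : (m ! : ℝ) ≤ 2 ^ m * (((i : ℕ)! : ℝ) * ((m - i)! : ℝ)) := by
    rw [← h2, mul_assoc]
    exact mul_le_mul_of_nonneg_right h3 (by positivity)
  have h5 : (m : ℝ) ^ m ≤ Real.exp m * (m ! : ℝ) := by
    have := Real.pow_div_factorial_le_exp (m : ℝ) hm'.le m
    rwa [div_le_iff₀ (by positivity)] at this
  rw [div_pow, Real.exp_neg, inv_le_iff_one_le_mul₀ (Real.exp_pos _), div_mul_eq_mul_div,
    div_mul_eq_mul_div, one_le_div (by positivity)]
  have h6 : (m : ℝ) ^ m ≤ Real.exp m * (2 ^ m * (((i : ℕ)! : ℝ) * ((m - i)! : ℝ))) :=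
    h5.trans (mul_le_mul_of_nonneg_left h4 (Real.exp_pos _).le)
  linarith

lemma KK_dist {z w : ℂ} (hz : z ∈ KK) (hw : w ∈ KK) : ‖z - w‖ ≤ 3 := by
  have h1 := Complex.norm_le_abs_re_add_abs_im (z - w)
  have h2 : |(z - w).re| ≤ 2 := by
    rw [Complex.sub_re]
    have := abs_sub z.re w.re
    linarith [hz.1, hw.1]
  have h3 : |(z - w).im| ≤ 1 := by
    rw [Complex.sub_im]
    have := abs_sub z.im w.im
    have := hz.2
    have := hw.2
    unfold dl at *
    linarith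
  linarith

lemma diam_lower (n : ℕ) : Real.exp (-1) ≤ diamN KK (n + 2) := by
  set m := n + 1 with hm
  have hm1 : 1 ≤ m := by omega
  have hm' : (0 : ℝ) < m := by exact_mod_cast hm1
  unfold diamN
  refine le_csSup_of_le ?_ (b := (∏ i : Fin (m + 1), ∏ j ∈ univ.erase i, ‖pt m i - pt m j‖) ^
    ((1 : ℝ) / (((n + 2 : ℕ) : ℝ) * (((n + 2 : ℕ) : ℝ) - 1)))) ⟨pt m, pt_mem hm1, rfl⟩ ?_
  · refine ⟨(∏ i : Fin (n + 2), ∏ j ∈ univ.erase i, (3 : ℝ)) ^
      ((1 : ℝ) / (((n + 2 : ℕ) : ℝ) * (((n + 2 : ℕ) : ℝ) - 1))), ?_⟩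
    rintro x ⟨z, hz, rfl⟩
    refine Real.rpow_le_rpow (Finset.prod_nonneg fun i _ => Finset.prod_nonneg fun j _ =>
      norm_nonneg _) ?_ ?_
    · exact Finset.prod_le_prod (fun i _ => Finset.prod_nonneg fun j _ => norm_nonneg _) fun i _ =>
        Finset.prod_le_prod (fun j _ => norm_nonneg _) fun j _ => KK_dist (hz i) (hz j)
    · have h1 : (0 : ℝ) ≤ ((n + 2 : ℕ) : ℝ) - 1 := by push_cast; linarith [Nat.cast_nonneg (α := ℝ) n]
      positivity
  · have h1 : Real.exp (-(m : ℝ) * (m + 1)) ≤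
        ∏ i : Fin (m + 1), ∏ j ∈ univ.erase i, ‖pt m i - pt m j‖ := by
      calc Real.exp (-(m : ℝ) * (m + 1)) = ∏ i : Fin (m + 1), Real.exp (-(m : ℝ)) := by
            rw [Finset.prod_const, Finset.card_univ, Fintype.card_fin, ← Real.exp_nat_mul]
            congr 1; push_cast; ring
        _ ≤ _ := Finset.prod_le_prod (fun i _ => (Real.exp_pos _).le) fun i _ => pt_prod hm1 i
    have h2 := Real.rpow_le_rpow (Real.exp_pos _).le h1
      (show 0 ≤ (1 : ℝ) / (((n + 2 : ℕ) : ℝ) * (((n + 2 : ℕ) : ℝ) - 1)) by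
        have h1 : (0 : ℝ) ≤ ((n + 2 : ℕ) : ℝ) - 1 := by
          push_cast; linarith [Nat.cast_nonneg (α := ℝ) n]
        positivity)
    refine le_trans (le_of_eq ?_) h2
    rw [← Real.exp_mul]
    congr 1
    have e1 : ((n + 2 : ℕ) : ℝ) = m + 1 := by rw [hm]; push_cast; ring
    have e2 : (m : ℝ) + 1 - 1 = m := by ring
    rw [e1, e2]
    have : (m : ℝ) + 1 ≠ 0 := by positivity
    have := hm'.ne'
    field_simp

lemma cap_lower : Real.exp (-1) ≤ cap KK := le_ciInf fun n => diam_lower n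

/-! ## Topology of the rectangle -/

lemma KK_compact : IsCompact KK := by
  refine Metric.isCompact_of_isClosed_isBounded ?_ ?_
  · exact (isClosed_le (Complex.continuous_re.abs) continuous_const).inter
      (isClosed_le (Complex.continuous_im.abs) continuous_const)
  · refine Metric.isBounded_iff.2 ⟨3, fun z hz w hw => ?_⟩
    rw [dist_eq_norm]
    exact KK_dist hz hw

lemma KK_convex : Convex ℝ KK := by
  intro z hz w hw a b ha hb hab
  refine ⟨?_, ?_⟩
  · have : (a • z + b • w).re = a * z.re + b * w.re := by simp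
    rw [this, abs_le]
    have h1 := abs_le.1 hz.1
    have h2 := abs_le.1 hw.1
    constructor <;> nlinarith
  · have : (a • z + b • w).im = a * z.im + b * w.im := by simp
    rw [this, abs_le]
    have h1 := abs_le.1 hz.2
    have h2 := abs_le.1 hw.2
    have h3 : dl = a * dl + b * dl := by rw [← add_mul, hab, one_mul]
    constructor <;> nlinarith

lemma KK_interior : (interior KK).Nonempty := by
  refine ⟨0, mem_interior.2 ⟨Metric.ball 0 dl, fun z hz => ?_, Metric.isOpen_ball,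
    Metric.mem_ball_self (by unfold dl; norm_num)⟩⟩
  have h1 : ‖z‖ < dl := by simpa using hz
  have h2 := Complex.abs_re_le_norm z
  have h3 := Complex.abs_im_le_norm z
  refine ⟨?_, by linarith⟩
  have : dl ≤ 1 := by unfold dl; norm_num
  linarith

/-- independent standard complex Gaussians exist -/
lemma exists_seq : ∃ P : Measure (ℕ → ℂ), IsGaussianSeq P (fun n ω => ω n) := by
  have := stdC_prob
  refine ⟨Measure.infinitePi fun _ => stdC, fun n => measurable_pi_apply n, ?_, fun n => ?_⟩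
  · exact iIndepFun_infinitePi (P := fun _ : ℕ => stdC) (X := fun _ w => w) (fun _ => measurable_id)
  · exact (measurePreserving_eval_infinitePi (fun _ : ℕ => stdC) n).map_eq

/-- **Main theorem.** For the thin rectangle `K = [-1,1] × [-1/100,1/100]` (compact, connected, with
non-empty interior) the hole probability exponent is eventually at most `r⁴/100`, while the
conjectured value is larger; hence the capacity formula fails for `K`. -/
theorem result :
    (∃ P : Measure (ℕ → ℂ), IsGaussianSeq P (fun n ω => ω n)) ∧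
    ∃ K : Set ℂ, IsCompact K ∧ IsConnected K ∧ (interior K).Nonempty ∧
      1 / 100 < Real.exp 2 / 4 * cap K ^ 4 ∧
      ∀ {Ω : Type} [MeasurableSpace Ω] (P : Measure Ω) (ξ : ℕ → Ω → ℂ), IsGaussianSeq P ξ →
        (∀ᶠ r in atTop, pH P ξ K r / r ^ 4 ≤ 1 / 100) ∧
        ¬ Tendsto (fun r : ℝ => pH P ξ K r / r ^ 4) atTop (𝓝 (Real.exp 2 / 4 * cap K ^ 4)) := by
  have hval : 1 / 100 < Real.exp 2 / 4 * cap KK ^ 4 := by
    have h1 : Real.exp (-1) ^ 4 ≤ cap KK ^ 4 := pow_le_pow_left₀ (Real.exp_pos _).le cap_lower 4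
    have h2 : Real.exp (-1) ^ 4 = Real.exp (-4) := by rw [← Real.exp_nat_mul]; norm_num
    have h3 : Real.exp 2 / 4 * Real.exp (-4) = Real.exp (-2) / 4 := by
      rw [div_mul_eq_mul_div, ← Real.exp_add]; norm_num
    have h4 : (1 : ℝ) / 100 < Real.exp (-2) / 4 := by
      have h5 : Real.exp 2 = Real.exp 1 ^ 2 := by rw [← Real.exp_nat_mul]; norm_num
      have h6 : Real.exp 2 < 9 := by
        rw [h5]
        have := Real.exp_one_lt_d9
        have := Real.exp_pos 1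
        nlinarith
      rw [Real.exp_neg]
      have h7 : (1 : ℝ) / 9 < (Real.exp 2)⁻¹ := by
        rw [inv_eq_one_div]
        exact one_div_lt_one_div_of_lt (Real.exp_pos _) h6
      linarith
    calc (1 : ℝ) / 100 < Real.exp (-2) / 4 := h4
      _ = Real.exp 2 / 4 * Real.exp (-1) ^ 4 := by rw [h2, h3]
      _ ≤ _ := mul_le_mul_of_nonneg_left h1 (by positivity)
  refine ⟨exists_seq, KK, KK_compact, ⟨⟨0, interior_subset (by
    refine mem_interior.2 ⟨Metric.ball 0 dl, fun z hz => ?_, Metric.isOpen_ball,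
      Metric.mem_ball_self (by unfold dl; norm_num)⟩
    have h1 : ‖z‖ < dl := by simpa using hz
    have h2 := Complex.abs_re_le_norm z
    have h3 := Complex.abs_im_le_norm z
    refine ⟨?_, by linarith⟩
    have : dl ≤ 1 := by unfold dl; norm_num
    linarith)⟩, KK_convex.isPreconnected⟩, KK_interior, hval, fun P ξ h => ?_⟩
  have hev := pH_eventually h
  refine ⟨hev, fun ht => ?_⟩
  exact absurd (le_of_tendsto ht hev) (not_le.2 hval)

end Pool.Agent.Results.MP_629fb1_pr.HoleCapacityFails
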